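import Pool.Agent.H624R3.CP.Stmts

set_option autoImplicit false

open MeasureTheory Metric Real

namespace Pool.Agent.H710R3.CPLat

open Pool.Agent.H624R3.CP

/-- integer lattice vector -/
def wv {n q : ℕ} (a : Fin n → ZMod q) (z : Fin (n + 1) → ℤ) : Fin (n + 1) → ℤ :=
  Fin.cons ((q : ℤ) * z 0 - ∑ i : Fin n, ((a i).val : ℤ) * z i.succ) (fun i => z i.succ)

/-- basis matrix -/
noncomputable def M0 {n q : ℕ} (a : Fin n → ZMod q) : Matrix (Fin (n + 1)) (Fin (n + 1)) ℝ :=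
  Matrix.of fun r => Fin.cases (Fin.cons (q : ℝ) (fun i => -((a i).val : ℝ)))
    (fun i => Pi.single i.succ 1) r

lemma M0_zero {n q : ℕ} (a : Fin n → ZMod q) :
    M0 a 0 = Fin.cons (q : ℝ) (fun i => -((a i).val : ℝ)) := rfl

lemma M0_succ {n q : ℕ} (a : Fin n → ZMod q) (i : Fin n) :
    M0 a i.succ = Pi.single i.succ 1 := rfl

lemma M0_det {n q : ℕ} (a : Fin n → ZMod q) : (M0 a).det = q := by
  rw [Matrix.det_of_isUpperTriangular, Fin.prod_univ_succ]
  · rw [M0_zero, Fin.cons_zero]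
    rw [Finset.prod_eq_one, mul_one]
    intro i _
    rw [M0_succ]
    simp
  · intro i j hij
    simp only [id] at hij
    induction i using Fin.cases with
    | zero => exact absurd hij (by simp)
    | succ k =>
      rw [M0_succ, Pi.single_eq_of_ne (ne_of_lt hij)]

lemma M0_mulVec {n q : ℕ} (a : Fin n → ZMod q) (z : Fin (n + 1) → ℤ) :
    (M0 a).mulVec (fun i => (z i : ℝ)) = fun i => (wv a z i : ℝ) := by
  funext r
  induction r using Fin.cases with
  | zero =>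
    rw [Matrix.mulVec, M0_zero, dotProduct, Fin.sum_univ_succ]
    simp only [Fin.cons_zero, Fin.cons_succ, wv]
    push_cast
    rw [sub_eq_add_neg, ← Finset.sum_neg_distrib]
    congr 1
    apply Finset.sum_congr rfl
    intro i _
    ring
  | succ k =>
    rw [Matrix.mulVec, M0_succ, single_dotProduct]
    simp [wv]

lemma wv_cond {n q : ℕ} [NeZero q] (a : Fin n → ZMod q) (z : Fin (n + 1) → ℤ) :
    ((wv a z 0 : ℤ) : ZMod q) + ∑ i : Fin n, a i * ((wv a z i.succ : ℤ) : ZMod q) = 0 := by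
  simp only [wv, Fin.cons_zero, Fin.cons_succ]
  push_cast
  simp

lemma lp_eq {n q : ℕ} (a : Fin n → ZMod q) (c : ℝ) (z : Fin (n + 1) → ℤ) :
    H624R3.CP.lp (c • M0 a) z = c • (WithLp.toLp 2 (fun i => (wv a z i : ℝ)) : E (n + 1)) := by
  unfold H624R3.CP.lp
  rw [Matrix.smul_mulVec, M0_mulVec]
  rfl


/-- the LinearIndependent transfer -/
lemma indep_wv {n q j : ℕ} (a : Fin n → ZMod q) (c : ℝ) (v : Fin j → Fin (n + 1) → ℤ)
    (h : LinearIndependent ℝ (fun l => H624R3.CP.lp (c • M0 a) (v l))) :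
    LinearIndependent ℝ (fun l i => (wv a (v l) i : ℝ)) := by
  let f : (Fin (n + 1) → ℝ) →ₗ[ℝ] E (n + 1) :=
    c • ((WithLp.linearEquiv 2 ℝ (Fin (n + 1) → ℝ)).symm : (Fin (n + 1) → ℝ) →ₗ[ℝ] E (n + 1))
  apply LinearIndependent.of_comp f
  convert h using 1
  funext l
  rw [lp_eq]
  rfl

theorem taskLAT (hA : TaskLATA) (hB : TaskLATB) : TaskLAT := by
  classical
  intro d hd R hR hvol
  obtain ⟨n, rfl⟩ : ∃ n, d = n + 1 := ⟨d - 1, by omega⟩
  have hn : 1 ≤ n := by omega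
  set V : ℝ := ∑ j ∈ Finset.Ico 1 (n + 1), (volume (R j)).toReal with hV
  obtain ⟨ε, hε, hεV⟩ : ∃ ε : ℝ, 0 < ε ∧ V + n * ε < 1 := by
    have hn' : (0:ℝ) < n := by exact_mod_cast hn
    refine ⟨(1 - V) / (2 * n), by
      apply div_pos (by linarith) (by positivity), ?_⟩
    have : (n:ℝ) * ((1 - V) / (2 * n)) = (1 - V) / 2 := by field_simp
    rw [this]; linarith
  -- constants
  have hC : ∀ j, ∃ C : ℝ, 0 ≤ C ∧ (1 ≤ j → j < n + 1 → ∀ v ∈ R j, ‖v‖ ≤ C) := by
    intro j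
    by_cases hj : 1 ≤ j ∧ j < n + 1
    · obtain ⟨C, hC⟩ := (hR j hj.1 hj.2).isBounded.exists_norm_le
      exact ⟨max C 0, le_max_right _ _, fun _ _ v hv => (hC v hv).trans (le_max_left _ _)⟩
    · exact ⟨0, le_rfl, fun h1 h2 => absurd ⟨h1, h2⟩ hj⟩
  choose C hC0 hCb using hC
  have hev : ∀ᶠ X : ℝ in Filter.atTop, 1 ≤ X ∧ ∀ j ∈ Finset.Ico 1 (n + 1),
      ({W : Fin j → Fin (n + 1) → ℤ | (fun l => (X⁻¹ : ℝ) • (WithLp.toLp 2
          (fun i => (W l i : ℝ)) : E (n + 1))) ∈ R j}.Finite ∧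
      (Set.ncard {W : Fin j → Fin (n + 1) → ℤ |
        (fun l => (X⁻¹ : ℝ) • (WithLp.toLp 2 (fun i => (W l i : ℝ)) : E (n + 1))) ∈ R j} : ℝ)
        ≤ ((volume (R j)).toReal + ε) * X ^ ((n + 1) * j)) ∧
      (j.factorial : ℝ) * (C j * X) ^ j < X ^ (n + 1) := by
    refine (Filter.eventually_ge_atTop 1).and ?_
    rw [Filter.eventually_all_finset]
    intro j hj
    rw [Finset.mem_Ico] at hj
    obtain ⟨X0, hX0, hX⟩ := hB (n + 1) j (R j) (hR j hj.1 hj.2) ε hε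
    filter_upwards [Filter.eventually_ge_atTop X0, Filter.eventually_ge_atTop 1,
      Filter.eventually_gt_atTop ((j.factorial : ℝ) * C j ^ j)] with X h1 h2 h3
    refine ⟨hX X h1, ?_⟩
    have h4 : (j.factorial : ℝ) * (C j * X) ^ j = ((j.factorial : ℝ) * C j ^ j) * X ^ j := by
      rw [mul_pow]; ring
    rw [h4]
    have h5 : X * X ^ j ≤ X ^ (n + 1) := by
      rw [← pow_succ']
      exact pow_le_pow_right₀ h2 (by omega)
    have h6 : (0:ℝ) < X ^ j := by positivity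
    calc ((j.factorial : ℝ) * C j ^ j) * X ^ j < X * X ^ j := mul_lt_mul_of_pos_right h3 h6
      _ ≤ X ^ (n + 1) := h5
  have htend : Filter.Tendsto (fun q : ℕ => (q : ℝ) ^ (((n + 1 : ℕ) : ℝ)⁻¹)) Filter.atTop
      Filter.atTop := by
    exact (tendsto_rpow_atTop (by positivity)).comp tendsto_natCast_atTop_atTop
  obtain ⟨N, hN⟩ := Filter.eventually_atTop.1 (htend.eventually hev)
  obtain ⟨q, hqN, hq⟩ := Nat.exists_infinite_primes N
  have hqev := hN q hqN
  set X : ℝ := (q : ℝ) ^ (((n + 1 : ℕ) : ℝ)⁻¹) with hXdef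
  obtain ⟨hX1, hXj⟩ := hqev
  have hX0 : 0 < X := by linarith
  have hXq : X ^ (n + 1) = q := by
    rw [hXdef]
    exact Real.rpow_inv_natCast_pow (by positivity) (by omega)
  haveI : Fact q.Prime := ⟨hq⟩
  haveI : NeZero q := ⟨hq.ne_zero⟩
  -- the bad sets
  let S : (j : ℕ) → Set (Fin j → Fin (n + 1) → ℤ) := fun j =>
    {W | (fun l => (X⁻¹ : ℝ) • (WithLp.toLp 2 (fun i => (W l i : ℝ)) : E (n + 1))) ∈ R j}
  let Bad : ℕ → Finset (Fin n → ZMod q) := fun j => Finset.univ.filter fun a =>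
    ∃ W ∈ S j, LinearIndependent ℝ (fun l i => (W l i : ℝ)) ∧
      ∀ l, ((W l 0 : ℤ) : ZMod q) + ∑ i : Fin n, a i * ((W l i.succ : ℤ) : ZMod q) = 0
  have hBad : ∀ j ∈ Finset.Ico 1 (n + 1),
      ((Bad j).card : ℝ) ≤ ((volume (R j)).toReal + ε) * (q : ℝ) ^ n := by
    intro j hj
    obtain ⟨⟨hfin, hcard⟩, hfac⟩ := hXj j hj
    rw [Finset.mem_Ico] at hj
    have hfinS : (S j).Finite := hfin
    set T : Finset (Fin j → Fin (n + 1) → ℤ) := hfinS.toFinset.filter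
      (fun W => LinearIndependent ℝ (fun l i => (W l i : ℝ))) with hT
    have hTcard : (T.card : ℝ) ≤ ((volume (R j)).toReal + ε) * (q : ℝ) ^ j := by
      have h1 : T.card ≤ hfinS.toFinset.card := Finset.card_filter_le _ _
      have h2 : (hfinS.toFinset.card : ℝ) ≤ ((volume (R j)).toReal + ε) * X ^ ((n + 1) * j) := by
        rw [← Set.ncard_eq_toFinset_card (S j) hfinS]
        exact hcard
      rw [pow_mul, hXq] at h2
      exact (Nat.cast_le.2 h1).trans h2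
    have hsub : Bad j ⊆ T.biUnion fun W => Finset.univ.filter fun a : Fin n → ZMod q =>
        ∀ l, ((W l 0 : ℤ) : ZMod q) + ∑ i : Fin n, a i * ((W l i.succ : ℤ) : ZMod q) = 0 := by
      intro a ha
      obtain ⟨W, hW, hi, hl⟩ := (Finset.mem_filter.1 ha).2
      rw [Finset.mem_biUnion]
      exact ⟨W, Finset.mem_filter.2 ⟨hfinS.mem_toFinset.2 hW, hi⟩,
        Finset.mem_filter.2 ⟨Finset.mem_univ _, hl⟩⟩
    have hW : ∀ W ∈ T, (Finset.univ.filter fun a : Fin n → ZMod q =>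
        ∀ l, ((W l 0 : ℤ) : ZMod q) + ∑ i : Fin n, a i * ((W l i.succ : ℤ) : ZMod q) = 0).card
          ≤ q ^ (n - j) := by
      intro W hW
      rw [hT, Finset.mem_filter] at hW
      obtain ⟨hWS, hWi⟩ := hW
      rw [hfinS.mem_toFinset] at hWS
      have hb : ∀ l i, |(W l i : ℝ)| ≤ C j * X := by
        intro l i
        have h1 := hCb j hj.1 hj.2 _ hWS
        have h2 : ‖(X⁻¹ : ℝ) • (WithLp.toLp 2 (fun i => (W l i : ℝ)) : E (n + 1))‖ ≤ C j :=
          (norm_le_pi_norm (fun l => (X⁻¹ : ℝ) • (WithLp.toLp 2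
            (fun i => (W l i : ℝ)) : E (n + 1))) l).trans h1
        have h3 := (PiLp.norm_apply_le ((X⁻¹ : ℝ) • (WithLp.toLp 2
          (fun i => (W l i : ℝ)) : E (n + 1))) i).trans h2
        have h4 : ((X⁻¹ : ℝ) • (WithLp.toLp 2 (fun i => (W l i : ℝ)) : E (n + 1))) i
            = X⁻¹ * (W l i : ℝ) := rfl
        rw [h4, Real.norm_eq_abs, abs_mul, abs_of_pos (inv_pos.2 hX0)] at h3
        rw [inv_mul_le_iff₀ hX0] at h3
        linarith
      have h5 := hA n j q (C j * X) inferInstance hj.1 (by omega) W hWi hb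
        (by rw [← hXq]; exact hfac)
      rw [Nat.card_eq_fintype_card, Fintype.card_subtype] at h5
      exact h5
    have h6 : (Bad j).card ≤ T.card * q ^ (n - j) :=
      (Finset.card_le_card hsub).trans (Finset.card_biUnion_le_card_mul _ _ _ hW)
    have h7 : ((Bad j).card : ℝ) ≤ (T.card : ℝ) * (q : ℝ) ^ (n - j) := by exact_mod_cast h6
    refine h7.trans ?_
    have h8 : (q : ℝ) ^ n = (q : ℝ) ^ j * (q : ℝ) ^ (n - j) := by
      rw [← pow_add]; congr 1; omega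
    rw [h8, ← mul_assoc]
    exact mul_le_mul_of_nonneg_right hTcard (by positivity)
  have hex : ∃ a : Fin n → ZMod q, ∀ j ∈ Finset.Ico 1 (n + 1), a ∉ Bad j := by
    by_contra hcon
    push Not at hcon
    have h1 : (Finset.univ : Finset (Fin n → ZMod q)) ⊆ (Finset.Ico 1 (n + 1)).biUnion Bad := by
      intro a _
      obtain ⟨j, hj, hj2⟩ := hcon a
      exact Finset.mem_biUnion.2 ⟨j, hj, hj2⟩
    have h2 := (Finset.card_le_card h1).trans Finset.card_biUnion_le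
    rw [Finset.card_univ, Fintype.card_fun, ZMod.card, Fintype.card_fin] at h2
    have h3 : ((q : ℝ) ^ n) ≤ ∑ j ∈ Finset.Ico 1 (n + 1), ((Bad j).card : ℝ) := by
      exact_mod_cast h2
    have h4 : ∑ j ∈ Finset.Ico 1 (n + 1), ((Bad j).card : ℝ)
        ≤ ∑ j ∈ Finset.Ico 1 (n + 1), ((volume (R j)).toReal + ε) * (q : ℝ) ^ n :=
      Finset.sum_le_sum hBad
    rw [← Finset.sum_mul, Finset.sum_add_distrib, Finset.sum_const, Nat.card_Ico, nsmul_eq_mul,
      ← hV] at h4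
    have h5 : (0:ℝ) < (q:ℝ) ^ n := by
      have : (0:ℝ) < q := by exact_mod_cast hq.pos
      positivity
    have h6 : ((n + 1 - 1 : ℕ) : ℝ) = n := by simp
    rw [h6] at h4
    have h7 : (V + n * ε) * (q:ℝ) ^ n < 1 * (q:ℝ) ^ n := mul_lt_mul_of_pos_right hεV h5
    linarith
  obtain ⟨a, ha⟩ := hex
  refine ⟨X⁻¹ • M0 a, ?_, ?_⟩
  · rw [Matrix.det_smul, M0_det, Fintype.card_fin, inv_pow, hXq, inv_mul_cancel₀, abs_one]
    exact_mod_cast hq.ne_zero
  · intro j hj1 hj2 v hv hmem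
    apply ha j (Finset.mem_Ico.2 ⟨hj1, hj2⟩)
    refine Finset.mem_filter.2 ⟨Finset.mem_univ _, fun l => wv a (v l), ?_, indep_wv a _ v hv,
      fun l => wv_cond a (v l)⟩
    show (fun l => (X⁻¹ : ℝ) • (WithLp.toLp 2 (fun i => (wv a (v l) i : ℝ)) : E (n + 1))) ∈ R j
    have h1 : (fun l => H624R3.CP.lp (X⁻¹ • M0 a) (v l)) = fun l => (X⁻¹ : ℝ) •
        (WithLp.toLp 2 (fun i => (wv a (v l) i : ℝ)) : E (n + 1)) := by
      funext l
      rw [lp_eq]
    rw [← h1]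
    exact hmem

end Pool.Agent.H710R3.CPLat
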