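import Pool.Agent.H418R3.EF.Stmts

set_option autoImplicit false

namespace Pool.Agent.H710R3.EFTaskE

open Pool.Agent.H418R3.EF
open scoped Pointwise

variable {n : ℕ}

lemma zmem {A : AddSubgroup (V n)} (z : ℤ) {v : V n} (hv : v ∈ A) : (z : ℚ) • v ∈ A := by
  have := A.zsmul_mem hv z
  rwa [← Int.cast_smul_eq_zsmul ℚ] at this

/-- localisation at `p` -/
def loc (p : ℕ) (hp : p.Prime) (A : AddSubgroup (V n)) : AddSubgroup (V n) where
  carrier := {v | ∃ m : ℤ, ¬ (p : ℤ) ∣ m ∧ (m : ℚ) • v ∈ A}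
  zero_mem' := ⟨1, (Nat.prime_iff_prime_int.1 hp).not_dvd_one, by simp [A.zero_mem]⟩
  add_mem' := by
    rintro a b ⟨m, hm, ha⟩ ⟨m', hm', hb⟩
    refine ⟨m * m', ?_, ?_⟩
    · rw [(Nat.prime_iff_prime_int.1 hp).dvd_mul]; tauto
    · have h1 := zmem m' ha
      have h2 := zmem m hb
      have h3 := A.add_mem h1 h2
      have e : ((m * m' : ℤ) : ℚ) • (a + b) = (m' : ℚ) • ((m : ℚ) • a) + (m : ℚ) • ((m' : ℚ) • b) := by
        rw [smul_smul, smul_smul, smul_add]; push_cast
        rw [mul_comm (m' : ℚ) m]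
      rw [e]; exact h3
  neg_mem' := by
    rintro a ⟨m, hm, ha⟩
    exact ⟨m, hm, by rw [smul_neg]; exact A.neg_mem ha⟩

lemma mem_loc {p : ℕ} {hp : p.Prime} {A : AddSubgroup (V n)} {v : V n} :
    v ∈ loc p hp A ↔ ∃ m : ℤ, ¬ (p : ℤ) ∣ m ∧ (m : ℚ) • v ∈ A := Iff.rfl

lemma loc_div {p : ℕ} {hp : p.Prime} {A : AddSubgroup (V n)} {v : V n} (b : ℤ)
    (hb : ¬ (p : ℤ) ∣ b) (h : (b : ℚ) • v ∈ loc p hp A) : v ∈ loc p hp A := by
  obtain ⟨m, hm, h⟩ := h
  refine ⟨m * b, ?_, ?_⟩
  · rw [(Nat.prime_iff_prime_int.1 hp).dvd_mul]; tauto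
  · rw [smul_smul] at h
    push_cast; exact h

lemma loc_smul {p : ℕ} {hp : p.Prime} {A : Sn n} (g : GQ n) {v : V n} :
    v ∈ loc p hp (g • A).1 ↔ g⁻¹ v ∈ loc p hp A.1 := by
  rw [mem_loc, mem_loc]
  refine exists_congr fun m => and_congr_right fun _ => ?_
  rw [mem_smul, map_smul]

/-- the basic predicate -/
def PP (p : ℕ) (hp : p.Prime) (A : Sn n) (k : ℤ) : Prop :=
  ∀ i : Fin n, ((p : ℚ) ^ k) • (Pi.single i (1 : ℚ) : V n) ∈ loc p hp A.1

lemma PP_succ {p : ℕ} {hp : p.Prime} {A : Sn n} {k : ℤ} (h : PP p hp A k) :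
    PP p hp A (k + 1) := by
  intro i
  have := zmem (p : ℤ) (h i)
  have hp0 : (p : ℚ) ≠ 0 := by exact_mod_cast hp.ne_zero
  rw [smul_smul] at this
  rw [zpow_add_one₀ hp0, mul_comm]
  exact_mod_cast this

lemma PP_mono {p : ℕ} {hp : p.Prime} {A : Sn n} {k l : ℤ} (hkl : k ≤ l) (h : PP p hp A k) :
    PP p hp A l := by
  induction l, hkl using Int.le_induction with
  | base => exact h
  | succ l _ ih => exact PP_succ ih

lemma jump_unique {p : ℕ} {hp : p.Prime} {A : Sn n} {k l : ℤ} (hk : PP p hp A k)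
    (hk' : ¬ PP p hp A (k - 1)) (hl : PP p hp A l) (hl' : ¬ PP p hp A (l - 1)) : k = l := by
  rcases lt_trichotomy k l with h | h | h
  · exact absurd (PP_mono (by omega) hk) hl'
  · exact h
  · exact absurd (PP_mono (by omega) hl) hk'

open Classical in
/-- the jump of a predicate -/
noncomputable def eF (Q : ℤ → Prop) : ℤ :=
  if h : ∃ k, Q k ∧ ¬ Q (k - 1) then h.choose else 0

open Classical in
/-- the invariant -/
noncomputable def ee (p : ℕ) (A : Sn n) : ℤ :=
  if hp : p.Prime then eF (PP p hp A) else 0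

lemma ee_eq {p : ℕ} (hp : p.Prime) {A : Sn n} {k : ℤ} (hk : PP p hp A k)
    (hk' : ¬ PP p hp A (k - 1)) : ee p A = k := by
  unfold ee
  rw [dif_pos hp]
  unfold eF
  have h : ∃ k, PP p hp A k ∧ ¬ PP p hp A (k - 1) := ⟨k, hk, hk'⟩
  rw [dif_pos h]
  exact jump_unique h.choose_spec.1 h.choose_spec.2 hk hk'

lemma ee_zero {p : ℕ} (hp : p.Prime) {A : Sn n}
    (h : ∀ k, ¬ (PP p hp A k ∧ ¬ PP p hp A (k - 1))) : ee p A = 0 := by
  unfold ee
  rw [dif_pos hp]
  unfold eF
  rw [dif_neg (by push Not; intro k hk; by_contra h1; exact h k ⟨hk, h1⟩)]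

lemma meas_mem (v : V n) : MeasurableSet {A : Sn n | v ∈ A.1} := by
  have h1 : Measurable (fun A : Sn n => fun v : V n => v ∈ A.1) := comap_measurable _
  have h2 : Measurable (fun A : Sn n => v ∈ A.1) := (measurable_pi_apply v).comp h1
  exact measurableSet_setOf.2 h2

lemma meas_PP (p : ℕ) (hp : p.Prime) (k : ℤ) : MeasurableSet {A : Sn n | PP p hp A k} := by
  have : {A : Sn n | PP p hp A k} = ⋂ i : Fin n, ⋃ m : ℤ,
      {A : Sn n | ¬ (p : ℤ) ∣ m ∧ (m : ℚ) • (((p : ℚ) ^ k) • (Pi.single i (1 : ℚ) : V n)) ∈ A.1} := by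
    ext A
    simp only [Set.mem_setOf_eq, Set.mem_iInter, Set.mem_iUnion]
    rfl
  rw [this]
  refine MeasurableSet.iInter fun i => MeasurableSet.iUnion fun m => ?_
  by_cases hm : (p : ℤ) ∣ m
  · convert MeasurableSet.empty using 1
    ext A; simp [hm]
  · convert meas_mem ((m : ℚ) • (((p : ℚ) ^ k) • (Pi.single i (1 : ℚ) : V n))) using 1
    ext A; simp [hm]

lemma meas_ee (p : ℕ) (k : ℤ) : MeasurableSet {A : Sn n | ee p A = k} := by
  by_cases hp : p.Prime
  · have hJ : ∀ j : ℤ, MeasurableSet {A : Sn n | PP p hp A j ∧ ¬ PP p hp A (j - 1)} := fun j =>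
      (meas_PP p hp j).inter (meas_PP p hp (j - 1)).compl
    have hN : MeasurableSet {A : Sn n | k = 0 ∧ ∀ j : ℤ, ¬ (PP p hp A j ∧ ¬ PP p hp A (j - 1))} := by
      by_cases hk : k = 0
      · have : {A : Sn n | k = 0 ∧ ∀ j : ℤ, ¬ (PP p hp A j ∧ ¬ PP p hp A (j - 1))} =
            ⋂ j : ℤ, {A : Sn n | PP p hp A j ∧ ¬ PP p hp A (j - 1)}ᶜ := by
          ext A
          simp only [Set.mem_setOf_eq, Set.mem_iInter, Set.mem_compl_iff, hk, true_and]
        rw [this]
        exact MeasurableSet.iInter fun j => (hJ j).compl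
      · convert MeasurableSet.empty using 1
        ext A; simp [hk]
    have : {A : Sn n | ee p A = k} = {A : Sn n | PP p hp A k ∧ ¬ PP p hp A (k - 1)} ∪
        {A : Sn n | k = 0 ∧ ∀ j : ℤ, ¬ (PP p hp A j ∧ ¬ PP p hp A (j - 1))} := by
      ext A
      constructor
      · intro h
        change ee p A = k at h
        by_cases hj : ∃ j : ℤ, PP p hp A j ∧ ¬ PP p hp A (j - 1)
        · obtain ⟨j, h1, h2⟩ := hj
          left
          have := ee_eq hp h1 h2
          rw [h] at this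
          subst this
          exact ⟨h1, h2⟩
        · right
          have h0 := ee_zero hp (A := A) (fun j hj' => hj ⟨j, hj'⟩)
          exact ⟨by rw [← h, h0], fun j hj' => hj ⟨j, hj'⟩⟩
      · rintro (h | h)
        · exact ee_eq hp h.1 h.2
        · change ee p A = k
          rw [ee_zero hp h.2, h.1]
    rw [this]
    exact (hJ k).union hN
  · have : ∀ A : Sn n, ee p A = 0 := fun A => by unfold ee; rw [dif_neg hp]
    by_cases hk : k = 0
    · convert MeasurableSet.univ using 1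
      ext A; simp [this, hk]
    · convert MeasurableSet.empty using 1
      ext A; simp only [Set.mem_setOf_eq, this, Set.mem_empty_iff_false, iff_false]
      exact fun h => hk h.symm

/-- common denominators of the matrix of a linear map -/
lemma exists_den (f : V n → V n) : ∃ D : ℕ, D ≠ 0 ∧ ∀ i j : Fin n, ∃ z : ℤ,
    (D : ℚ) * f (Pi.single i 1) j = z := by
  refine ⟨∏ i : Fin n, ∏ j : Fin n, (f (Pi.single i 1) j).den, ?_, ?_⟩
  · exact Finset.prod_ne_zero_iff.2 fun i _ => Finset.prod_ne_zero_iff.2 fun j _ => Rat.den_nz _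
  · intro i j
    have h1 : (f (Pi.single i 1) j).den ∣ ∏ i : Fin n, ∏ j : Fin n, (f (Pi.single i 1) j).den :=
      (Finset.dvd_prod_of_mem (fun j => (f (Pi.single i 1) j).den) (Finset.mem_univ j)).trans
        (Finset.dvd_prod_of_mem (fun i => ∏ j : Fin n, (f (Pi.single i 1) j).den)
          (Finset.mem_univ i))
    obtain ⟨c, hc⟩ := h1
    refine ⟨c * (f (Pi.single i 1) j).num, ?_⟩
    rw [hc]
    push_cast
    have := Rat.den_mul_eq_num (f (Pi.single i 1) j)
    rw [mul_comm ((f (Pi.single i 1) j).den : ℚ) (c : ℚ), mul_assoc, this]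

lemma expand (v : V n) : v = ∑ j, v j • (Pi.single j (1 : ℚ) : V n) := by
  funext i
  simp [Finset.sum_apply, Pi.single_apply]

lemma PP_transfer {p : ℕ} {hp : p.Prime} {A : Sn n} {k : ℤ} (g : GQ n) (D : ℕ)
    (hD : ∀ i j : Fin n, ∃ z : ℤ, (D : ℚ) * (g⁻¹ (Pi.single i 1 : V n)) j = z) (hpD : ¬ p ∣ D)
    (h : PP p hp A k) : PP p hp (g • A) k := by
  intro i
  rw [loc_smul]
  choose z hz using hD i
  apply loc_div (D : ℤ) (by exact_mod_cast hpD)
  have e : ((D : ℤ) : ℚ) • (g⁻¹ (((p : ℚ) ^ k) • (Pi.single i (1 : ℚ) : V n))) =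
      ∑ j, ((z j : ℤ) : ℚ) • (((p : ℚ) ^ k) • (Pi.single j (1 : ℚ) : V n)) := by
    rw [map_smul]
    conv_lhs => rw [expand (g⁻¹ (Pi.single i (1 : ℚ) : V n))]
    rw [Finset.smul_sum, Finset.smul_sum]
    refine Finset.sum_congr rfl fun j _ => ?_
    rw [← hz j, smul_smul, smul_smul, smul_smul]
    congr 1
    push_cast
    ring
  rw [e]
  exact AddSubgroup.sum_mem _ fun j _ => zmem (z j) (h j)

lemma exists_mult {A : AddSubgroup (V n)} (h : Submodule.span ℚ (A : Set (V n)) = ⊤) (v : V n) :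
    ∃ N : ℤ, N ≠ 0 ∧ (N : ℚ) • v ∈ A := by
  have hv : v ∈ Submodule.span ℚ (A : Set (V n)) := by rw [h]; trivial
  induction hv using Submodule.span_induction with
  | mem x hx => exact ⟨1, one_ne_zero, by simpa using hx⟩
  | zero => exact ⟨1, one_ne_zero, by simp [A.zero_mem]⟩
  | add x y _ _ hx hy =>
    obtain ⟨N, hN, h1⟩ := hx
    obtain ⟨M, hM, h2⟩ := hy
    refine ⟨N * M, mul_ne_zero hN hM, ?_⟩
    have h3 := A.add_mem (zmem M h1) (zmem N h2)
    rw [smul_smul, smul_smul] at h3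
    push_cast
    rw [smul_add]
    rwa [mul_comm (M : ℚ) N] at h3
  | smul a x _ hx =>
    obtain ⟨N, hN, h1⟩ := hx
    refine ⟨N * a.den, mul_ne_zero hN (by exact_mod_cast a.den_nz), ?_⟩
    have h3 := zmem a.num h1
    rw [smul_smul] at h3 ⊢
    have e : ((N * (a.den : ℤ) : ℤ) : ℚ) * a = (a.num : ℚ) * N := by
      push_cast
      rw [mul_assoc, Rat.den_mul_eq_num]; ring
    rw [e]; exact h3

lemma int_split {p : ℕ} (hp : p.Prime) {N : ℤ} (hN : N ≠ 0) :
    ∃ (t : ℕ) (m : ℤ), ¬ (p : ℤ) ∣ m ∧ N = (p : ℤ) ^ t * m := by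
  have hf : FiniteMultiplicity (p : ℤ) N := by
    rw [Int.finiteMultiplicity_iff]
    exact ⟨by simpa using hp.one_lt.ne', hN⟩
  obtain ⟨m, h1, h2⟩ := hf.exists_eq_pow_mul_and_not_dvd
  exact ⟨_, m, h2, h1⟩

lemma exists_PP {p : ℕ} (hp : p.Prime) (A : Sn n) : ∃ k : ℤ, PP p hp A k := by
  have h1 : ∀ i : Fin n, ∃ t : ℕ, ∀ l : ℤ, (t : ℤ) ≤ l →
      ((p : ℚ) ^ l) • (Pi.single i (1 : ℚ) : V n) ∈ loc p hp A.1 := by
    intro i
    obtain ⟨N, hN, h⟩ := exists_mult A.2 (Pi.single i (1 : ℚ) : V n)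
    obtain ⟨t, m, hm, hNm⟩ := int_split hp hN
    refine ⟨t, fun l hl => ?_⟩
    refine ⟨m, hm, ?_⟩
    obtain ⟨s, hs⟩ := Int.eq_ofNat_of_zero_le (sub_nonneg.2 hl)
    have hl' : l = (t : ℤ) + s := by omega
    have h2 := zmem ((p : ℤ) ^ s) h
    rw [hNm, smul_smul] at h2
    rw [smul_smul]
    have hp0 : (p : ℚ) ≠ 0 := by exact_mod_cast hp.ne_zero
    have e : (m : ℚ) * (p : ℚ) ^ l = (((p : ℤ) ^ s : ℤ) : ℚ) * (((p : ℤ) ^ t * m : ℤ) : ℚ) := by
      rw [hl', zpow_add₀ hp0]
      push_cast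
      rw [zpow_natCast, zpow_natCast]
      ring
    rw [e]; exact h2
  choose t ht using h1
  refine ⟨((∑ i, t i : ℕ) : ℤ), fun i => ht i _ ?_⟩
  exact_mod_cast Finset.single_le_sum (f := t) (fun _ _ => Nat.zero_le _) (Finset.mem_univ i)

lemma all_PP {p : ℕ} (hp : p.Prime) (A : Sn n)
    (h : ∀ k, ¬ (PP p hp A k ∧ ¬ PP p hp A (k - 1))) (k : ℤ) : PP p hp A k := by
  obtain ⟨k0, hk0⟩ := exists_PP hp A
  rcases le_total k0 k with hk | hk
  · exact PP_mono hk hk0
  · induction k, hk using Int.le_induction_down with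
    | base => exact hk0
    | pred l _ ih =>
      by_contra h1
      exact h l ⟨ih, h1⟩

lemma loc_top {p : ℕ} (hp : p.Prime) (A : Sn n) (h : ∀ k, PP p hp A k) (v : V n) :
    v ∈ loc p hp A.1 := by
  obtain ⟨D, hD, hz⟩ : ∃ D : ℕ, D ≠ 0 ∧ ∀ j : Fin n, ∃ z : ℤ, (D : ℚ) * v j = z := by
    refine ⟨∏ j : Fin n, (v j).den, Finset.prod_ne_zero_iff.2 fun j _ => Rat.den_nz _, ?_⟩
    intro j
    obtain ⟨c, hc⟩ := Finset.dvd_prod_of_mem (fun j => (v j).den) (Finset.mem_univ j)
    refine ⟨c * (v j).num, ?_⟩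
    rw [hc]
    push_cast
    rw [mul_comm ((v j).den : ℚ) (c : ℚ), mul_assoc, Rat.den_mul_eq_num]
  choose z hz using hz
  obtain ⟨t, m, hm, hDm⟩ := int_split hp (N := (D : ℤ)) (by exact_mod_cast hD)
  apply loc_div m hm
  have hp0 : (p : ℚ) ≠ 0 := by exact_mod_cast hp.ne_zero
  have hDq : (D : ℚ) = (p : ℚ) ^ t * m := by exact_mod_cast hDm
  have e : (m : ℚ) • v = ∑ j, ((z j : ℤ) : ℚ) • (((p : ℚ) ^ (-(t : ℤ))) •
      (Pi.single j (1 : ℚ) : V n)) := by
    conv_lhs => rw [expand v]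
    rw [Finset.smul_sum]
    refine Finset.sum_congr rfl fun j _ => ?_
    rw [smul_smul, smul_smul, ← hz j, hDq, zpow_neg, zpow_natCast]
    congr 1
    field_simp
  rw [e]
  exact AddSubgroup.sum_mem _ fun j _ => zmem (z j) (h _ j)

/-- local global principle -/
lemma local_global {A : AddSubgroup (V n)} {v : V n} (h : ∀ p (hp : p.Prime), v ∈ loc p hp A) :
    v ∈ A := by
  let I : Ideal ℤ := 
    { carrier := {m : ℤ | (m : ℚ) • v ∈ A}
      zero_mem' := by simp [A.zero_mem]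
      add_mem' := by
        intro a b ha hb
        have := A.add_mem ha hb
        rw [← add_smul] at this
        change ((a + b : ℤ) : ℚ) • v ∈ A
        push_cast; exact this
      smul_mem' := by
        intro c a ha
        have := zmem c ha
        rw [smul_smul] at this
        change ((c * a : ℤ) : ℚ) • v ∈ A
        push_cast; exact this }
  have hI : I = ⊤ := by
    by_contra hne
    obtain ⟨M, hM, hIM⟩ := Ideal.exists_le_maximal I hne
    obtain ⟨d, hd⟩ := (IsPrincipalIdealRing.principal M).principal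
    have hd0 : d ≠ 0 := by
      intro h0
      obtain ⟨m, hm, hmA⟩ := h 2 Nat.prime_two
      have : m ∈ M := hIM hmA
      rw [hd, h0] at this
      simp at this
      rw [this] at hm
      exact hm (dvd_zero _)
    have hdp : Prime d := by
      rw [← Ideal.span_singleton_prime hd0]
      rw [Ideal.submodule_span_eq] at hd
      rw [← hd]
      exact hM.isPrime
    have hpn : (d.natAbs).Prime := Int.prime_iff_natAbs_prime.1 hdp
    obtain ⟨m, hm, hmA⟩ := h _ hpn
    have hmM : m ∈ M := hIM hmA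
    rw [hd, Ideal.submodule_span_eq, Ideal.mem_span_singleton] at hmM
    exact hm (Int.natAbs_dvd.2 hmM)
  have : (1 : ℤ) ∈ I := by rw [hI]; trivial
  have h1 : ((1 : ℤ) : ℚ) • v ∈ A := this
  simpa using h1

lemma scal_le (g : GQ n) (A : Sn n) (c : ℚ) (hc : c ≠ 0) (hg : ∀ v, g v = c • v)
    (he : ∀ p, ee p (g • A) = ee p A) : A.1 ≤ (g • A).1 := by
  have hgi : ∀ v, g⁻¹ v = c⁻¹ • v := by
    intro v
    have h1 : g (c⁻¹ • v) = v := by rw [hg, smul_smul, mul_inv_cancel₀ hc, one_smul]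
    have h2 : g⁻¹ (g (c⁻¹ • v)) = c⁻¹ • v := g.symm_apply_apply _
    rw [h1] at h2; exact h2
  intro v hv
  rw [mem_smul, hgi]
  apply local_global
  intro p hp
  by_cases hpn : (p : ℤ) ∣ c.num
  · -- the group is divisible at `p`
    have hcn : c.num ≠ 0 := Rat.num_ne_zero.2 hc
    obtain ⟨s, a, ha, hs⟩ := int_split hp hcn
    have hs0 : s ≠ 0 := by
      rintro rfl
      rw [pow_zero, one_mul] at hs
      exact ha (hs ▸ hpn)
    have hb : ¬ (p : ℤ) ∣ (c.den : ℤ) := by
      intro hd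
      have h1 : p ∣ c.num.natAbs := Int.natCast_dvd.1 hpn
      have h2 : p ∣ c.den := by exact_mod_cast hd
      have h3 := Nat.dvd_gcd h1 h2
      rw [c.reduced] at h3
      exact hp.one_lt.ne' (Nat.dvd_one.1 h3)
    have hp0 : (p : ℚ) ≠ 0 := by exact_mod_cast hp.ne_zero
    have ha0 : (a : ℚ) ≠ 0 := by
      intro h0
      have : a = 0 := by exact_mod_cast h0
      rw [this] at ha
      exact ha (dvd_zero _)
    have hb0 : (c.den : ℚ) ≠ 0 := by exact_mod_cast c.den_nz
    have hcq : c = (p : ℚ) ^ s * a / c.den := by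
      have h1 : (c.num : ℚ) = (p : ℚ) ^ s * a := by exact_mod_cast congrArg (Int.cast (R := ℚ)) hs
      rw [← h1]
      exact (Rat.num_div_den c).symm
    have key : ∀ k : ℤ, PP p hp (g • A) k ↔ PP p hp A (k - s) := by
      intro k
      refine forall_congr' fun i => ?_
      rw [loc_smul, hgi, smul_smul]
      have hps : (p : ℚ) ^ (k - (s : ℤ)) = (p : ℚ) ^ k / (p : ℚ) ^ s := by
        rw [zpow_sub₀ hp0, zpow_natCast]
      constructor
      · intro h
        apply loc_div (c.den : ℤ) hb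
        have h1 := zmem a h
        rw [smul_smul] at h1
        have e : (((c.den : ℤ) : ℚ)) • ((p : ℚ) ^ (k - (s : ℤ)) • (Pi.single i (1 : ℚ) : V n)) =
            ((a : ℚ) * (c⁻¹ * (p : ℚ) ^ k)) • (Pi.single i (1 : ℚ) : V n) := by
          rw [smul_smul, hps]
          congr 1
          push_cast
          conv_rhs => rw [hcq]
          field_simp
        rw [e]; exact h1
      · intro h
        apply loc_div a ha
        have h1 := zmem (c.den : ℤ) h
        rw [smul_smul] at h1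
        have e : (a : ℚ) • ((c⁻¹ * (p : ℚ) ^ k) • (Pi.single i (1 : ℚ) : V n)) =
            (((c.den : ℤ) : ℚ) * (p : ℚ) ^ (k - (s : ℤ))) • (Pi.single i (1 : ℚ) : V n) := by
          rw [smul_smul, hps]
          congr 1
          push_cast
          conv_lhs => rw [hcq]
          field_simp
        rw [e]; exact h1
    apply loc_top hp A
    apply all_PP
    rintro k ⟨h1, h2⟩
    have e1 := ee_eq hp h1 h2
    have e2 : ee p (g • A) = k + s := by
      apply ee_eq hp
      · rw [key]; simpa using h1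
      · rw [key]
        have : k + (s : ℤ) - 1 - s = k - 1 := by ring
        rw [this]; exact h2
    have e3 := he p
    rw [e1, e2] at e3
    omega
  · apply loc_div c.num hpn
    refine ⟨1, (Nat.prime_iff_prime_int.1 hp).not_dvd_one, ?_⟩
    have hcn : (c.num : ℚ) * c⁻¹ = c.den := by
      have h1 : (c.num : ℚ) = c.den * c := (Rat.den_mul_eq_num c).symm
      rw [h1, mul_assoc, mul_inv_cancel₀ hc, mul_one]
    rw [smul_smul, smul_smul, mul_assoc, hcn]
    have := zmem (c.den : ℤ) hv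
    simpa using this

theorem taskE : TaskE := by
  intro n hn
  refine ⟨ee, fun p k => meas_ee p k, ?_, ?_⟩
  · intro g A
    obtain ⟨D1, hD1, h1⟩ := exists_den (n := n) (fun v => g⁻¹ v)
    obtain ⟨D2, hD2, h2⟩ := exists_den (n := n) (fun v => g v)
    refine (Set.finite_le_nat (max D1 D2)).subset ?_
    intro p hp
    by_contra hlt
    apply hp
    change ¬ p ≤ max D1 D2 at hlt
    push Not at hlt
    have l1 : D1 < p := lt_of_le_of_lt (le_max_left _ _) hlt
    have l2 : D2 < p := lt_of_le_of_lt (le_max_right _ _) hlt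
    have d1 : ¬ p ∣ D1 := fun h => absurd (Nat.le_of_dvd (Nat.pos_of_ne_zero hD1) h) (by omega)
    have d2 : ¬ p ∣ D2 := fun h => absurd (Nat.le_of_dvd (Nat.pos_of_ne_zero hD2) h) (by omega)
    unfold ee
    by_cases hpp : p.Prime
    · rw [dif_pos hpp, dif_pos hpp]
      congr 1
      funext k
      apply propext
      constructor
      · intro h
        have h3 := PP_transfer (A := g • A) g⁻¹ D2 (by simpa using h2) d2 h
        rwa [inv_smul_smul] at h3
      · exact PP_transfer g D1 h1 d1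
    · rw [dif_neg hpp, dif_neg hpp]
  · rintro g A ⟨c, hc⟩ he
    have hc0 : c ≠ 0 := by
      rintro rfl
      have h1 : (Pi.single ⟨0, hn⟩ (1 : ℚ) : V n) = 0 := by
        apply g.injective
        rw [hc, zero_smul, map_zero]
      have := congrFun h1 ⟨0, hn⟩
      simp at this
    have hgi : ∀ v, g⁻¹ v = c⁻¹ • v := by
      intro v
      have h1 : g (c⁻¹ • v) = v := by rw [hc, smul_smul, mul_inv_cancel₀ hc0, one_smul]
      have h2 : g⁻¹ (g (c⁻¹ • v)) = c⁻¹ • v := g.symm_apply_apply _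
      rw [h1] at h2; exact h2
    apply Subtype.ext
    apply le_antisymm
    · have := scal_le g⁻¹ (g • A) c⁻¹ (inv_ne_zero hc0) hgi (by
        intro p
        rw [inv_smul_smul]
        exact (he p).symm)
      rwa [inv_smul_smul] at this
    · exact scal_le g A c hc0 hc he

end Pool.Agent.H710R3.EFTaskE
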