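import Pool.Agent.H647R3.NBDef

set_option autoImplicit false

open Set Topology

namespace H710R3.NBTouch

open H647R3.Fac H647R3.NB

universe u

theorem taskTouch : TaskTouch.{u} := by
  intro E _ _ _ _ _ D f hf U g a b C x s c hx hs hg hC hUD hle heq
  obtain ⟨φ, hφ⟩ := hg
  refine ⟨φ.comp (ContinuousLinearMap.fst ℝ E ℝ) + c • ContinuousLinearMap.snd ℝ E ℝ, ?_⟩
  intro B hB ε hε
  have hB1 := hB.image (ContinuousLinearMap.fst ℝ E ℝ)
  have hB2 := hB.image (ContinuousLinearMap.snd ℝ E ℝ)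
  rw [NormedSpace.isVonNBounded_iff] at hB2
  obtain ⟨M, hM⟩ := isBounded_iff_forall_norm_le.1 hB2
  set M1 : ℝ := |M| + 1 with hM1d
  have hM1 : 0 < M1 := by positivity
  have hMr : ∀ p ∈ B, |p.2| ≤ M1 := by
    intro p hp
    have h1 := hM p.2 ⟨p, hp, rfl⟩
    rw [Real.norm_eq_abs] at h1
    have h2 := le_abs_self M
    linarith
  obtain ⟨δ1, hδ1, H1⟩ := hφ _ hB1 (ε / 4) (by positivity)
  have hk : 0 < ε / (4 * M1) := by positivity
  have hC' := (hasDerivAt_iff_isLittleO_nhds_zero.1 hC).def hk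
  obtain ⟨δ2, hδ2, H2⟩ := Metric.eventually_nhds_iff.1 hC'
  have hδ3 : 0 < min (s - a) (b - s) := lt_min (by linarith [hs.1]) (by linarith [hs.2])
  set δ3 : ℝ := min (s - a) (b - s) with hδ3d
  have key : ∀ t : ℝ, 0 < |t| → |t| < min δ1 (min (δ2 / M1) (δ3 / M1)) → ∀ p ∈ B,
      (x + t • p.1, s + t * p.2) ∈ D ∧
      f (x + t • p.1, s + t * p.2) ≤ f (x, s) + t * (φ p.1 + c * p.2) + |t| * (ε / 2) := by
    intro t ht ht' p hp
    have t1 : |t| < δ1 := lt_of_lt_of_le ht' (min_le_left _ _)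
    have t2 : |t| < δ2 / M1 :=
      lt_of_lt_of_le ht' ((min_le_right _ _).trans (min_le_left _ _))
    have t3 : |t| < δ3 / M1 :=
      lt_of_lt_of_le ht' ((min_le_right _ _).trans (min_le_right _ _))
    rw [lt_div_iff₀ hM1] at t2 t3
    have hr := hMr p hp
    have habs : |t * p.2| ≤ |t| * M1 := by
      rw [abs_mul]
      exact mul_le_mul_of_nonneg_left hr (abs_nonneg t)
    obtain ⟨hU, hgd⟩ := H1 t ht t1 p.1 ⟨p, hp, rfl⟩
    have h2 := H2 (y := t * p.2) (by rw [dist_zero_right, Real.norm_eq_abs]; linarith)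
    rw [Real.norm_eq_abs, Real.norm_eq_abs, smul_eq_mul] at h2
    have hI : s + t * p.2 ∈ Ioo a b := by
      have h3 : |t * p.2| < δ3 := by linarith
      have h4 := (abs_lt.1 h3)
      have h5 : δ3 ≤ s - a := min_le_left _ _
      have h6 : δ3 ≤ b - s := min_le_right _ _
      constructor <;> linarith [h4.1, h4.2]
    refine ⟨hUD ⟨hU, hI⟩, ?_⟩
    have e1 := hle _ hU _ hI
    have ht0 : t ≠ 0 := abs_pos.1 ht
    have e2 : |g (x + t • p.1) - g x - t * φ p.1| ≤ |t| * (ε / 4) := by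
      have h7 : g (x + t • p.1) - g x - t * φ p.1 =
          t * ((g (x + t • p.1) - g x) / t - φ p.1) := by
        field_simp
      rw [h7, abs_mul]
      exact mul_le_mul_of_nonneg_left hgd.le (abs_nonneg t)
    have e3 : ε / (4 * M1) * |t * p.2| ≤ |t| * (ε / 4) := by
      calc ε / (4 * M1) * |t * p.2| ≤ ε / (4 * M1) * (|t| * M1) :=
            mul_le_mul_of_nonneg_left habs hk.le
        _ = |t| * (ε / 4) := by field_simp
    have e4 := (abs_le.1 e2).2
    have e5 := (abs_le.1 (h2.trans e3)).2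
    rw [heq]
    nlinarith
  refine ⟨min δ1 (min (δ2 / M1) (δ3 / M1)), by positivity, ?_⟩
  intro t ht ht' p hp
  obtain ⟨m1, u1⟩ := key t ht ht' p hp
  obtain ⟨m2, u2⟩ := key (-t) (by rwa [abs_neg]) (by rwa [abs_neg]) p hp
  rw [abs_neg] at u2
  have hconv := hf.2 m1 m2 (show (0:ℝ) ≤ 1 / 2 by norm_num) (show (0:ℝ) ≤ 1 / 2 by norm_num)
    (by norm_num)
  have hmid : (1 / 2 : ℝ) • ((x + t • p.1, s + t * p.2) : E × ℝ) +
      (1 / 2 : ℝ) • ((x + (-t) • p.1, s + (-t) * p.2) : E × ℝ) = (x, s) := by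
    refine Prod.ext ?_ ?_
    · change (1 / 2 : ℝ) • (x + t • p.1) + (1 / 2 : ℝ) • (x + (-t) • p.1) = x
      rw [← smul_add]
      have : x + t • p.1 + (x + (-t) • p.1) = (2:ℝ) • x := by
        rw [neg_smul, two_smul]; abel
      rw [this, smul_smul]; norm_num
    · change (1 / 2 : ℝ) * (s + t * p.2) + (1 / 2 : ℝ) * (s + (-t) * p.2) = s
      ring
  rw [hmid] at hconv
  simp only [smul_eq_mul] at hconv
  have hpt : (x, s) + t • p = (x + t • p.1, s + t * p.2) := by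
    refine Prod.ext rfl ?_
    change s + t • p.2 = s + t * p.2
    rw [smul_eq_mul]
  rw [hpt]
  refine ⟨m1, ?_⟩
  have hψ : (φ.comp (ContinuousLinearMap.fst ℝ E ℝ) + c • ContinuousLinearMap.snd ℝ E ℝ) p =
      φ p.1 + c * p.2 := rfl
  rw [hψ]
  have ht0 : t ≠ 0 := abs_pos.1 ht
  set w : ℝ := φ p.1 + c * p.2 with hw
  have hfin : |f (x + t • p.1, s + t * p.2) - f (x, s) - t * w| ≤ |t| * (ε / 2) := by
    rw [abs_le]
    constructor <;> linarith
  have h8 : (f (x + t • p.1, s + t * p.2) - f (x, s)) / t - w =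
      (f (x + t • p.1, s + t * p.2) - f (x, s) - t * w) / t := by
    field_simp
  rw [h8, abs_div, div_lt_iff₀ ht]
  nlinarith

end H710R3.NBTouch
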