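import Pool.Agent.H889R3.RQ.Stmts

set_option autoImplicit false

namespace Pool.Agent.H710R3.RQB2

open Finset Pool.Agent.H889R3.RQ
open Pool.Agent.H620R2.Gauge (accProb circAct gateAct initSt Gate rd flipIf)
open Pool.Agent.H516R2.EQP (queries)

/-- cost of a gate -/
def cost (g : Gate) : Bool := match g with | Sum.inr (true, _, _) => true | _ => false

theorem gate_mem (h : St_B1) {N : ℕ} (O : (Fin N → Bool) → (List Bool → Bool))
    (hO : ∀ z, (∃ b, ∀ y, O y z = b) ∨ ∃ i, ∀ y, O y z = y i) {m : ℕ} (g : Gate) (k : ℕ)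
    (ψ : (Fin N → Bool) → (Fin m → Bool) → ℝ) (hψ : ∀ s, (fun y => ψ y s) ∈ Pk N k)
    (s : Fin m → Bool) :
    (fun y => gateAct (O y) g (ψ y) s) ∈ Pk N (k + (if cost g then 1 else 0)) := by
  obtain ⟨hmul, hmono, hconst, hcoord, -⟩ := h N
  rcases g with i | ⟨_ | _, q, t⟩
  · have hc : cost (Sum.inl i) = false := rfl
    simp only [hc, Bool.false_eq_true, if_false, add_zero]
    by_cases hi : i < m
    · have e : (fun y => gateAct (O y) (Sum.inl i) (ψ y) s) =
          (Real.sqrt 2)⁻¹ • (fun y => ψ y (Function.update s ⟨i, hi⟩ false)) +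
          ((if s ⟨i, hi⟩ then (-1 : ℝ) else 1) / Real.sqrt 2) •
            (fun y => ψ y (Function.update s ⟨i, hi⟩ true)) := by
        funext y
        simp only [gateAct, hi, dif_pos, Pi.add_apply, Pi.smul_apply, smul_eq_mul]
        ring
      rw [e]
      exact Submodule.add_mem _ (Submodule.smul_mem _ _ (hψ _)) (Submodule.smul_mem _ _ (hψ _))
    · have e : (fun y => gateAct (O y) (Sum.inl i) (ψ y) s) = fun y => ψ y s := by
        funext y
        simp only [gateAct, hi, dif_neg, not_false_eq_true]
      rw [e]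
      exact hψ s
  · have hc : cost (Sum.inr (false, q, t)) = false := rfl
    simp only [hc, Bool.false_eq_true, if_false, add_zero]
    exact hψ _
  · have hc : cost (Sum.inr (true, q, t)) = true := rfl
    simp only [hc, if_true]
    by_cases ht : t < m
    · set z := q.map (rd (Function.update s ⟨t, ht⟩ false)) with hz
      have hu : (fun y => if O y z then (1:ℝ) else 0) ∈ Pk N 1 := by
        rcases hO z with ⟨b, hb⟩ | ⟨i, hi⟩
        · simp only [hb]
          exact hmono 0 1 (by omega) (hconst _)
        · simp only [hi]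
          exact hcoord i
      have hu' : (fun y => 1 - if O y z then (1:ℝ) else 0) ∈ Pk N 1 :=
        Submodule.sub_mem _ (hmono 0 1 (by omega) (hconst 1)) hu
      have e : (fun y => gateAct (O y) (Sum.inr (true, q, t)) (ψ y) s) =
          (fun y => (fun y => ψ y (Function.update s ⟨t, ht⟩ (s ⟨t, ht⟩ ^^ false))) y *
              (fun y => 1 - if O y z then (1:ℝ) else 0) y) +
          (fun y => (fun y => ψ y (Function.update s ⟨t, ht⟩ (s ⟨t, ht⟩ ^^ true))) y *
              (fun y => if O y z then (1:ℝ) else 0) y) := by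
        funext y
        simp only [gateAct, flipIf, ht, dif_pos, Pi.add_apply, ← hz]
        cases O y z <;> simp
      rw [e]
      exact Submodule.add_mem _ (hmul k 1 _ _ (hψ _) hu') (hmul k 1 _ _ (hψ _) hu)
    · have e : (fun y => gateAct (O y) (Sum.inr (true, q, t)) (ψ y) s) = fun y => ψ y s := by
        funext y
        simp only [gateAct, flipIf, ht, dif_neg, not_false_eq_true]
      rw [e]
      exact hmono k (k + 1) (by omega) (hψ s)

theorem circ_mem (h : St_B1) {N : ℕ} (O : (Fin N → Bool) → (List Bool → Bool))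
    (hO : ∀ z, (∃ b, ∀ y, O y z = b) ∨ ∃ i, ∀ y, O y z = y i) {m : ℕ} (l : List Gate) : ∀ (k : ℕ)
    (ψ : (Fin N → Bool) → (Fin m → Bool) → ℝ), (∀ s, (fun y => ψ y s) ∈ Pk N k) →
    ∀ s : Fin m → Bool, (fun y => circAct (O y) l (ψ y) s) ∈ Pk N (k + l.countP cost) := by
  induction l with
  | nil =>
    intro k ψ hψ s
    simpa [circAct] using hψ s
  | cons g l ih =>
    intro k ψ hψ s
    have h1 := ih (k + (if cost g then 1 else 0)) (fun y => gateAct (O y) g (ψ y))
      (fun s => gate_mem h O hO g k ψ hψ s) s
    have e : k + (if cost g then 1 else 0) + l.countP cost = k + (g :: l).countP cost := by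
      rw [List.countP_cons]
      omega
    rw [e] at h1
    exact h1

theorem b2 (h : St_B1) : St_B2 := by
  intro N O hO c
  obtain ⟨hmul, hmono, hconst, hcoord, -⟩ := h N
  have hq : queries c = c.2.countP cost := by
    unfold queries
    congr 1
  have hinit : ∀ s : Fin c.1.length → Bool,
      (fun _ : Fin N → Bool => initSt c.1.length s) ∈ Pk N 0 := fun s => hconst _
  have h1 := circ_mem h O hO c.2 0 (fun _ => initSt c.1.length) hinit
  have e : (fun y => accProb (O y) c) = ∑ s : Fin c.1.length → Bool,
      (fun y => if rd s 0 then circAct (O y) c.2 (initSt c.1.length) s ^ 2 else 0) := by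
    funext y
    rw [Finset.sum_apply]
    rfl
  rw [e]
  apply Submodule.sum_mem
  intro s _
  by_cases hs : rd s 0 = true
  · simp only [hs, if_true]
    have h2 := hmul _ _ _ _ (h1 s) (h1 s)
    rw [hq, two_mul]
    rw [zero_add] at h2
    simpa only [sq] using h2
  · simp only [hs, Bool.false_eq_true, if_false]
    exact Submodule.zero_mem _

end Pool.Agent.H710R3.RQB2
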