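import Pool.Agent.H110R3.UF.Stmts

set_option autoImplicit false

open scoped Matrix Matrix.Norms.L2Operator
open Filter Topology

namespace Pool.Agent.H710R3.UFCompl

open Pool.Agent.H110R3.UF

theorem taskCompl : TaskCompl := by
  intro I J L _ _ _ _ _ s t m hm hC
  have hcs : CauchySeq m := by
    rw [Metric.cauchySeq_iff]
    intro ε hε
    obtain ⟨n₀, h⟩ := hC ε hε
    refine ⟨n₀, fun p hp q hq => ?_⟩
    rw [dist_eq_norm]
    exact h p hp q hq
  haveI : CompleteSpace (Matrix I J ℂ) := FiniteDimensional.complete ℂ _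
  obtain ⟨r, hr⟩ := cauchySeq_tendsto_of_complete hcs
  refine ⟨r, ?_, ?_⟩
  · intro i j hij
    have hcont : Continuous (fun A : Matrix I J ℂ => A i j) :=
      LinearMap.continuous_of_finiteDimensional (Matrix.entryLinearMap ℂ ℂ i j)
    have h1 := (hcont.tendsto r).comp hr
    have h2 : (fun A : Matrix I J ℂ => A i j) ∘ m = fun _ => 0 := funext fun k => hm k i j hij
    rw [h2] at h1
    exact (tendsto_nhds_unique tendsto_const_nhds h1).symm
  · intro ε hε
    obtain ⟨n₀, h⟩ := Metric.tendsto_atTop.1 hr ε hε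
    refine ⟨n₀, fun q hq => ?_⟩
    have := h q hq
    rwa [dist_eq_norm] at this

end Pool.Agent.H710R3.UFCompl
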